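import Pool.Agent.H820.F3.Stm

/-!
# F3 SERIES: locally uniformly convergent series of smooth, almost all holomorphic functions
-/

set_option autoImplicit false

namespace Pool.Agent.H161.F3

open Complex Filter Topology
open scoped ContDiff
open Pool.Agent.H820.F3

/-- a real differentiable function with `db = 0` is complex differentiable -/
lemma diff_of_db {f : ℂ → ℂ} {z : ℂ} (h : DifferentiableAt ℝ f z) (h0 : db f z = 0) :
    DifferentiableAt ℂ f z := by
  rw [differentiableAt_complex_iff_differentiableAt_real]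
  refine ⟨h, ?_⟩
  unfold db at h0
  simp only [smul_eq_mul] at h0 ⊢
  have hI : I * I = -1 := I_mul_I
  linear_combination (-I) * h0 + (fderiv ℝ f z I) * hI

lemma db_of_diff {f : ℂ → ℂ} {z : ℂ} (h : DifferentiableAt ℂ f z) : db f z = 0 := by
  have h2 := (differentiableAt_complex_iff_differentiableAt_real.mp h).2
  unfold db
  rw [h2]
  simp only [smul_eq_mul]
  have hI : I * I = -1 := I_mul_I
  linear_combination (fderiv ℝ f z 1) * hI

theorem t_series : S_series := by
  classical
  intro G U hU f hf hloc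
  have hfa : ∀ g, ∀ z ∈ U, ContDiffAt ℝ ∞ (f g) z := fun g z hz =>
    (hf g).contDiffAt (hU.mem_nhds hz)
  have hfd : ∀ g, ∀ z ∈ U, DifferentiableAt ℝ (f g) z := fun g z hz =>
    (hfa g z hz).differentiableAt (by simp)
  have key : ∀ z ∈ U, ∃ (S : Finset G) (V : Set ℂ) (T : ℂ → ℂ), IsOpen V ∧ z ∈ V ∧ V ⊆ U ∧
      DifferentiableOn ℂ T V ∧ (∀ g ∉ S, db (f g) z = 0) ∧
      ∀ w ∈ V, (Summable fun g => f g w) ∧ ∑' g, f g w = (∑ g ∈ S, f g w) + T w := by
    intro z hz
    obtain ⟨N, hN, S, hdb, B, hB, hle⟩ := hloc z hz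
    obtain ⟨N', hN'N, hN'o, hzN'⟩ := mem_nhds_iff.mp hN
    set F : G → ℂ → ℂ := fun g w => if g ∈ S then 0 else f g w with hF
    have hFle : ∀ g, ∀ w ∈ N' ∩ U, ‖F g w‖ ≤ |B g| := by
      intro g w hw
      rw [hF]
      by_cases hg : g ∈ S
      · simp [hg]
      · simp only [hg, if_false]
        exact (hle g hg w (hN'N hw.1)).trans (le_abs_self _)
    have hVo : IsOpen (N' ∩ U) := hN'o.inter hU
    refine ⟨S, N' ∩ U, fun w => ∑' g, F g w, hVo, ⟨hzN', hz⟩, Set.inter_subset_right, ?_,
      fun g hg => hdb g hg z (hN'N hzN'), ?_⟩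
    · refine differentiableOn_tsum_of_summable_norm hB.abs (fun g => ?_) hVo hFle
      intro w hw
      rw [hF]
      by_cases hg : g ∈ S
      · simp only [hg, if_true]
        exact differentiableWithinAt_const _
      · simp only [hg, if_false]
        exact (diff_of_db (hfd g w hw.2) (hdb g hg w (hN'N hw.1))).differentiableWithinAt
    · intro w hw
      have h1 : Summable fun g => F g w := Summable.of_norm_bounded hB.abs fun g => hFle g w hw
      have h2 : HasSum (fun g => if g ∈ S then f g w else 0) (∑ g ∈ S, f g w) := by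
        have h3 : HasSum (fun g => if g ∈ S then f g w else 0)
            (∑ g ∈ S, (if g ∈ S then f g w else 0)) :=
          hasSum_sum_of_ne_finset_zero (fun g hg => by simp [hg])
        have h4 : ∑ g ∈ S, (if g ∈ S then f g w else 0) = ∑ g ∈ S, f g w :=
          Finset.sum_congr rfl fun g hg => by simp [hg]
        rwa [h4] at h3
      have h5 := h2.add h1.hasSum
      have h6 : (fun g => (if g ∈ S then f g w else 0) + F g w) = fun g => f g w := by
        funext g
        rw [hF]
        by_cases hg : g ∈ S <;> simp [hg]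
      rw [h6] at h5
      exact ⟨h5.summable, h5.tsum_eq⟩
  refine ⟨fun z hz => ?_, fun z hz => ?_, fun z hz => ?_⟩
  · obtain ⟨S, V, T, hVo, hzV, hVU, hT, -, hsum⟩ := key z hz
    apply ContDiffAt.contDiffWithinAt
    have h1 : ContDiffAt ℝ ∞ T z :=
      ((hT.analyticAt (hVo.mem_nhds hzV)).contDiffAt (n := ∞)).restrict_scalars ℝ
    have h2 : ContDiffAt ℝ ∞ (fun w => (∑ g ∈ S, f g w) + T w) z :=
      (ContDiffAt.sum fun g _ => hfa g z hz).add h1
    refine h2.congr_of_eventuallyEq ?_
    filter_upwards [hVo.mem_nhds hzV] with w hw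
    exact (hsum w hw).2
  · obtain ⟨S, V, T, hVo, hzV, hVU, hT, -, hsum⟩ := key z hz
    exact (hsum z hzV).1
  · obtain ⟨S, V, T, hVo, hzV, hVU, hT, hdb, hsum⟩ := key z hz
    have hTd : DifferentiableAt ℂ T z := (hT z hzV).differentiableAt (hVo.mem_nhds hzV)
    have hTr : DifferentiableAt ℝ T z := hTd.restrictScalars ℝ
    have h1 : (fun w => ∑' g, f g w) =ᶠ[𝓝 z] fun w => (∑ g ∈ S, f g w) + T w := by
      filter_upwards [hVo.mem_nhds hzV] with w hw
      exact (hsum w hw).2
    have hSd : DifferentiableAt ℝ (fun w => ∑ g ∈ S, f g w) z :=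
      DifferentiableAt.fun_sum fun g _ => hfd g z hz
    have h2 : fderiv ℝ (fun w => ∑' g, f g w) z =
        (∑ g ∈ S, fderiv ℝ (f g) z) + fderiv ℝ T z := by
      rw [h1.fderiv_eq, fderiv_fun_add hSd hTr, fderiv_fun_sum fun g _ => hfd g z hz]
    rw [tsum_eq_sum (s := S) fun g hg => hdb g hg]
    have h3 := db_of_diff hTd
    unfold db at h3 ⊢
    rw [h2]
    simp only [_root_.add_apply, _root_.sum_apply, smul_eq_mul] at h3 ⊢
    rw [Finset.sum_add_distrib, ← Finset.mul_sum]
    linear_combination h3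

end Pool.Agent.H161.F3
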